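import Pool.Agent.Q4.SPC.Stm

/-!
# Project SPC of helper4: the normal closure of the long root subgroup (job SD)
-/

set_option autoImplicit false

open Matrix Q4.GLC Q4.SPC

namespace Pool.Agent.Q198.SPC

lemma sr1_field (F : Type) [Field F] : SR1 F := by
  intro a b x y h
  by_cases ha : a = 0
  · have hb : b ≠ 0 := by
      rintro rfl
      rw [ha] at h
      simp at h
    exact ⟨1, by rw [ha, zero_add, one_mul]; exact hb.isUnit⟩
  · exact ⟨0, by rw [zero_mul, add_zero]; exact (Ne.isUnit ha)⟩

variable {F : Type} [Field F] {n : ℕ}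

/-- the symmetric matrices `S` with `up S` in `P` -/
def A (P : Subgroup (Sp n F)) : AddSubgroup (Matrix (Fin n) (Fin n) F) where
  carrier := {S | ∃ h : Sᵀ = S, up S h ∈ P}
  zero_mem' := ⟨by simp, by rw [up_zero]; exact P.one_mem⟩
  add_mem' := by
    rintro S T ⟨hS, h1⟩ ⟨hT, h2⟩
    refine ⟨by rw [transpose_add, hS, hT], ?_⟩
    rw [← up_mul S T hS hT]
    exact P.mul_mem h1 h2
  neg_mem' := by
    rintro S ⟨hS, h1⟩
    refine ⟨by rw [transpose_neg, hS], ?_⟩
    rw [← up_inv S hS]
    exact P.inv_mem h1

lemma mem_A {P : Subgroup (Sp n F)} {S : Matrix (Fin n) (Fin n) F} :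
    S ∈ A P ↔ ∃ h : Sᵀ = S, up S h ∈ P := Iff.rfl

/-- conjugation by a transvection -/
lemma A_conj {P : Subgroup (Sp n F)} (hP : P.Normal) {S : Matrix (Fin n) (Fin n) F} (hS : S ∈ A P)
    (i j : Fin n) (h : i ≠ j) (c : F) : transvection i j c * S * transvection j i c ∈ A P := by
  obtain ⟨h1, h2⟩ := hS
  have h3 := hP.conj_mem _ h2 (lvt i j h c)
  unfold lvt at h3
  rw [lv_up] at h3
  have e : (transvection i j c)ᵀ = transvection j i c := transv_transpose i j c
  refine ⟨?_, ?_⟩
  · rw [transpose_mul, transpose_mul, e, h1, transv_transpose j i c, Matrix.mul_assoc]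
  · simpa only [e] using h3

lemma sneg (i j : Fin n) (b : F) : (single i j (-b) : Matrix (Fin n) (Fin n) F) = -single i j b := by
  ext p q
  by_cases h : i = p ∧ j = q <;> simp [single, h]

lemma tr_mul_single (i j : Fin n) (c b : F) :
    transvection i j c * single j j b * transvection j i c =
      single j j b + (single i j (c * b) + single j i (c * b)) + single i i (c * b * c) := by
  rw [transvection, transvection, add_mul, one_mul, single_mul_single_same, mul_add, mul_one,
    add_mul, single_mul_single_same, single_mul_single_same, mul_comm b c]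
  abel

/-- the diagonal ones -/
lemma A_diag {P : Subgroup (Sp n F)} (hP : P.Normal) (i0 : Fin n)
    (h0 : ∀ b, single i0 i0 b ∈ A P) (i : Fin n) (b : F) : single i i b ∈ A P := by
  by_cases hi : i = i0
  · rw [hi]; exact h0 b
  have h1 := A_conj hP (h0 b) i i0 hi 1
  have h2 := A_conj hP h1 i0 i (Ne.symm hi) (-1)
  rw [tr_mul_single i i0 1 b] at h2
  have e : transvection i0 i (-1) * (single i0 i0 b + (single i i0 (1 * b) + single i0 i (1 * b)) +
      single i i (1 * b * 1)) * transvection i i0 (-1) = single i i b := by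
    simp only [transvection, add_mul, mul_add, one_mul, mul_one, single_mul_single_same,
      single_mul_single_of_ne _ _ _ _ hi, single_mul_single_of_ne _ _ _ _ (Ne.symm hi), zero_mul,
      mul_zero, add_zero, zero_add, neg_mul, mul_neg, neg_neg, sneg]
    abel
  rw [e] at h2
  exact h2

lemma A_off {P : Subgroup (Sp n F)} (hP : P.Normal) (h0 : ∀ i b, single i i b ∈ A P) (i j : Fin n)
    (h : i ≠ j) (b : F) : single i j b + single j i b ∈ A P := by
  have h1 := A_conj hP (h0 j b) i j h 1
  rw [tr_mul_single i j 1 b] at h1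
  have h2 := (A P).sub_mem ((A P).sub_mem h1 (h0 j b)) (h0 i b)
  have e : single j j b + (single i j (1 * b) + single j i (1 * b)) + single i i (1 * b * 1) -
      single j j b - single i i b = single i j b + single j i b := by
    rw [one_mul, mul_one]
    abel
  rwa [e] at h2

lemma A_all {P : Subgroup (Sp n F)} (h0 : ∀ i b, single i i b ∈ A P)
    (h1 : ∀ i j, i ≠ j → ∀ b : F, single i j b + single j i b ∈ A P)
    (S : Matrix (Fin n) (Fin n) F) (hS : Sᵀ = S) : S ∈ A P := by
  have hsym : ∀ i j, S j i = S i j := fun i j => congrFun (congrFun hS i) j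
  have e1 : S = ∑ i : Fin n, ∑ j : Fin n, single j i (S j i) := by
    conv_lhs => rw [matrix_eq_sum_single S]
    exact Finset.sum_comm
  have e2 : ∀ i : Fin n, ∑ j : Fin n, single j i (S j i) =
      single i i (S i i) + ∑ j ∈ ({i} : Finset (Fin n))ᶜ, single j i (S j i) := by
    intro i
    rw [← Finset.sum_add_sum_compl ({i} : Finset (Fin n)), Finset.sum_singleton]
  have e3 := Finset.sum_sum_Ioi_add_eq_sum_sum_off_diag (fun i j : Fin n => single i j (S i j))
  have e4 : S = ∑ i : Fin n, single i i (S i i) +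
      ∑ i : Fin n, ∑ j ∈ Finset.Ioi i, (single j i (S j i) + single i j (S i j)) := by
    rw [e3, ← Finset.sum_add_distrib]
    conv_lhs => rw [e1]
    exact Finset.sum_congr rfl fun i _ => e2 i
  rw [e4]
  refine (A P).add_mem ((A P).sum_mem fun i _ => h0 i _) ?_
  refine (A P).sum_mem fun i _ => (A P).sum_mem fun j hj => ?_
  rw [hsym i j, add_comm]
  exact h1 i j (ne_of_lt (Finset.mem_Ioi.1 hj)) _

/-- the Levi elements -/
lemma lvt_eq (i j : Fin n) (h : i ≠ j) (b : F)
    (hS : (single i j (1 : F) + single j i 1)ᵀ = single i j 1 + single j i 1)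
    (hS' : (-(single i j (1 : F) + single j i 1))ᵀ = -(single i j 1 + single j i 1))
    (hT : (single j j b)ᵀ = single j j b) (hT' : (-single j j b)ᵀ = -single j j b)
    (hD : (single i i b)ᵀ = single i i b) :
    lvt i j h b = up (single i j (1 : F) + single j i 1) hS * lo (single j j b) hT *
      up (-(single i j (1 : F) + single j i 1)) hS' * lo (-single j j b) hT' *
      up (single i i b) hD := by
  refine Subtype.ext ?_
  change fromBlocks (transvection i j b) 0 0 (transvection j i (-b)) =
    fromBlocks 1 (single i j (1 : F) + single j i 1) 0 1 * fromBlocks 1 0 (single j j b) 1 *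
      fromBlocks 1 (-(single i j (1 : F) + single j i 1)) 0 1 * fromBlocks 1 0 (-single j j b) 1 *
      fromBlocks 1 (single i i b) 0 1
  simp only [fromBlocks_multiply]
  simp only [transvection, add_mul, mul_add, one_mul, mul_one, single_mul_single_same,
    single_mul_single_of_ne _ _ _ _ h, single_mul_single_of_ne _ _ _ _ (Ne.symm h), zero_mul,
    mul_zero, add_zero, zero_add, neg_mul, mul_neg, neg_neg, sneg]
  congr 1 <;> abel

theorem t_SD : SD := by
  intro hSA F _ n i0 hi0 P hP hb
  have h0 : ∀ b, single i0 i0 b ∈ A P := by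
    intro b
    have ht : (Matrix.diagonal (Pi.single i0 b) : Matrix (Fin n) (Fin n) F)ᵀ =
      Matrix.diagonal (Pi.single i0 b) := Matrix.diagonal_transpose _
    have h1 : Matrix.diagonal (Pi.single i0 b) ∈ A P := ⟨ht, hb b ht⟩
    rwa [diagonal_single] at h1
  have h1 := A_diag hP i0 h0
  have h2 := A_off hP h1
  have hup : ∀ (S : Matrix (Fin n) (Fin n) F) (hS : Sᵀ = S), up S hS ∈ P := by
    intro S hS
    obtain ⟨_, h⟩ := A_all h1 h2 S hS
    exact h
  have hlo : ∀ (S : Matrix (Fin n) (Fin n) F) (hS : Sᵀ = S), lo S hS ∈ P := by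
    intro S hS
    have hS' : (-S)ᵀ = -S := by rw [transpose_neg, hS]
    have h3 := hP.conj_mem _ (hup (-S) hS') (SymplecticGroup.symJ (Fin n) F)
    rw [symJ_up] at h3
    simpa only [neg_neg] using h3
  have hlv : ∀ (i j : Fin n) (h : i ≠ j) (b : F), lvt i j h b ∈ P := by
    intro i j h b
    have hS : (single i j (1 : F) + single j i 1)ᵀ = single i j 1 + single j i 1 := by
      rw [transpose_add, transpose_single, transpose_single, add_comm]
    have hS' : (-(single i j (1 : F) + single j i 1))ᵀ = -(single i j 1 + single j i 1) := by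
      rw [transpose_neg, hS]
    have hT : (single j j b)ᵀ = single j j b := transpose_single _ _ _
    have hT' : (-single j j b)ᵀ = -single j j b := by rw [transpose_neg, hT]
    have hD : (single i i b)ᵀ = single i i b := transpose_single _ _ _
    rw [lvt_eq i j h b hS hS' hT hT' hD]
    exact P.mul_mem (P.mul_mem (P.mul_mem (P.mul_mem (hup _ _) (hlo _ _)) (hup _ _)) (hlo _ _))
      (hup _ _)
  rw [eq_top_iff]
  intro g _
  refine (Subgroup.closure_le P).2 ?_ (hSA F (sr1_field F) n g)
  rintro x (⟨S, hS, hx⟩ | ⟨S, hS, hx⟩ | ⟨i, j, h, b, hx⟩)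
  · have e : x = up S hS := Subtype.ext (by rw [hx, one_smul]; rfl)
    rw [e]
    exact hup S hS
  · have e : x = lo S hS := Subtype.ext (by rw [hx, one_smul]; rfl)
    rw [e]
    exact hlo S hS
  · have e : x = lvt i j h b := Subtype.ext (by rw [hx, one_mul]; rfl)
    rw [e]
    exact hlv i j h b

end Pool.Agent.Q198.SPC
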